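import Mathlib

set_option autoImplicit false

/-! Simultaneous recurrence: the integers `h` for which finitely many multiples `h α i` are all close
to integers have bounded gaps. -/

namespace Pool.Agent.K7.H55.SY

theorem fract_close {a b K : ℝ} (hK : 0 < K) (h : ⌊K * Int.fract a⌋ = ⌊K * Int.fract b⌋) :
    ∃ k : ℤ, |a - b - k| ≤ 1 / K := by
  refine ⟨⌊a⌋ - ⌊b⌋, ?_⟩
  have h1 := Int.abs_sub_lt_one_of_floor_eq_floor h
  have e : a - b - ((⌊a⌋ - ⌊b⌋ : ℤ) : ℝ) = Int.fract a - Int.fract b := by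
    rw [Int.fract, Int.fract]
    push_cast
    ring
  rw [e]
  rw [← mul_sub, abs_mul, abs_of_pos hK] at h1
  rw [le_div_iff₀ hK, mul_comm]
  exact h1.le

theorem recur {ι : Type} [Finite ι] (α : ι → ℝ) {K : ℕ} (hK : 0 < K) :
    ∃ B : ℕ, ∀ M : ℕ, ∃ h : ℕ, M ≤ h ∧ h ≤ M + B ∧ ∀ i, ∃ k : ℤ, |(h : ℝ) * α i - k| ≤ 1 / K := by
  classical
  have hK' : (0 : ℝ) < K := by exact_mod_cast hK
  let f : ℕ → ι → Fin K := fun n i => ⟨⌊(K : ℝ) * Int.fract ((n : ℝ) * α i)⌋.toNat, by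
    have h1 : (K : ℝ) * Int.fract ((n : ℝ) * α i) < K := by
      have := Int.fract_lt_one ((n : ℝ) * α i)
      nlinarith
    have h2 : ⌊(K : ℝ) * Int.fract ((n : ℝ) * α i)⌋ < (K : ℤ) := Int.floor_lt.2 (by exact_mod_cast h1)
    omega⟩
  have hfin : (Set.range f).Finite := Set.toFinite _
  -- representatives
  have hrep : ∀ p : ι → Fin K, ∃ n : ℕ, p ∈ Set.range f → f n = p := by
    intro p
    by_cases hp : p ∈ Set.range f
    · obtain ⟨n, hn⟩ := hp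
      exact ⟨n, fun _ => hn⟩
    · exact ⟨0, fun h => absurd h hp⟩
  choose g hg using hrep
  obtain ⟨B, hB⟩ : ∃ B : ℕ, ∀ p ∈ Set.range f, g p ≤ B := by
    obtain ⟨B, hB⟩ := (hfin.image g).bddAbove
    exact ⟨B, fun p hp => hB ⟨p, hp, rfl⟩⟩
  refine ⟨B, fun M => ?_⟩
  have h1 : f (M + B) ∈ Set.range f := ⟨_, rfl⟩
  have h2 := hB _ h1
  have h3 := hg _ h1
  refine ⟨M + B - g (f (M + B)), by omega, by omega, fun i => ?_⟩
  have h4 := congrArg (fun q => ((q i : Fin K) : ℕ)) h3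
  simp only [f] at h4
  have e1 : ∀ n : ℕ, 0 ≤ ⌊(K : ℝ) * Int.fract ((n : ℝ) * α i)⌋ := fun n =>
    Int.floor_nonneg.2 (mul_nonneg hK'.le (Int.fract_nonneg _))
  have h5 : ⌊(K : ℝ) * Int.fract (((M + B : ℕ) : ℝ) * α i)⌋ =
      ⌊(K : ℝ) * Int.fract ((g (f (M + B)) : ℝ) * α i)⌋ := by
    have a1 := e1 (M + B)
    have a2 := e1 (g (f (M + B)))
    have h4' : ⌊(K : ℝ) * Int.fract ((g (f (M + B)) : ℝ) * α i)⌋.toNat =
      ⌊(K : ℝ) * Int.fract (((M + B : ℕ) : ℝ) * α i)⌋.toNat := h4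
    omega
  obtain ⟨k, hk⟩ := fract_close hK' h5
  refine ⟨k, ?_⟩
  have e2 : ((M + B - g (f (M + B)) : ℕ) : ℝ) * α i - k =
      ((M + B : ℕ) : ℝ) * α i - (g (f (M + B)) : ℝ) * α i - k := by
    rw [Nat.cast_sub (by omega)]
    ring
  rw [e2]
  exact hk

/-- Shifting a multiplicity: if `2 h √r` is within `ε` of a multiple of six then no integer of a class
modulo a divisor of six enters a window around `√r (2 m + 1)`. -/
theorem transfer {s ε lo up : ℝ} {m0 h : ℕ} {st : ℤ} (hst : st ∣ 6) (hst0 : 0 < st) {D1 : ℤ}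
    {k : ℤ} (hk : |2 * (h : ℝ) * s - 6 * k| ≤ ε)
    (h1 : (D1 : ℝ) + lo + ε < s * (2 * m0 + 1)) (h2 : s * (2 * m0 + 1) < (D1 : ℝ) + st - up - ε)
    {D : ℤ} (hD : st ∣ D - D1) :
    (D : ℝ) - s * (2 * ((m0 + h : ℕ) : ℝ) + 1) < -lo ∨ up < (D : ℝ) - s * (2 * ((m0 + h : ℕ) : ℝ) + 1) := by
  obtain ⟨c, hc⟩ := hst
  obtain ⟨j, hj⟩ := hD
  have hk1 := (abs_le.1 hk).1
  have hk2 := (abs_le.1 hk).2
  have hstR : (0 : ℝ) < st := by exact_mod_cast hst0
  have e : (D : ℝ) = D1 + st * j := by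
    have : D = D1 + st * j := by omega
    rw [this]
    push_cast
    ring
  have e6 : (6 : ℝ) * k = st * (c * k) := by
    have : (6 : ℝ) = st * c := by exact_mod_cast hc
    rw [this]
    ring
  push_cast
  rcases le_or_gt j (c * k) with h3 | h3
  · left
    have h4 : (st : ℝ) * j ≤ st * (c * k) := by
      refine mul_le_mul_of_nonneg_left ?_ hstR.le
      exact_mod_cast h3
    rw [e]
    nlinarith
  · right
    have h4 : (st : ℝ) * (c * k + 1) ≤ st * j := by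
      refine mul_le_mul_of_nonneg_left ?_ hstR.le
      exact_mod_cast h3
    rw [e]
    nlinarith

end Pool.Agent.K7.H55.SY
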