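import Pool.Agent.K7.H55.SY.Bridge
import Pool.Agent.R36.PS.Main
import Pool.Agent.TH545.SD.Dg
import Pool.Agent.TH641.NW.End2

set_option autoImplicit false

/-! Sixteen, twenty-five and thirty-six general points of one multiplicity: the expected dimension in
every degree. -/

namespace Pool.Agent.K7.H55.SY

open Finset Pool.Agent.TH176.Nag Pool.Agent.TH603.Sur Pool.Agent.TH545.SD
open Pool.Agent.H932R3 (ExpDim)
open Pool.Agent.H932R2 (Tset Tfin coe_Tfin RkI uIdeal EE)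
open Pool.Agent.TH2.NU Pool.Agent.TH641.UM

/-! ### nine points -/

theorem Sur_nine (m : ℕ) {d : ℕ} (hd : 3 * m + 1 ≤ d) : Sur (fun _ : Fin 9 => m) (TZ d) := by
  have h1 : SP (fun _ : Fin 9 => m) (3 * m + 3) 0 9 := by
    refine SP_final (fun _ : Fin 9 => m) m (fun _ => Nat.le_succ _) (by norm_num) (by simp) ?_
    have e : √(9 : ℝ) = 3 := by
      rw [show (9 : ℝ) = 3 ^ 2 by norm_num]
      exact Real.sqrt_sq (by norm_num)
    rw [e]
    simp only [max_self, sum_const, card_univ, Fintype.card_fin, smul_eq_mul]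
    push_cast
    linarith
  have h2 : SP (fun _ : Fin 9 => m) (3 * m + 3) 0 1 := by
    have h3 := Pool.Agent.TH181.NagM.Rv.mul (n := 1) 3 (by norm_num) (by norm_num)
    refine Pool.Agent.TH181.NagM.Mv.closed (SP_closed (by positivity)) h3 ?_
    norm_num
    exact h1
  have h3 := h2.2 (d + 3) (by
    have : (3 * m + 1 : ℝ) ≤ d := by exact_mod_cast hd
    linarith) 0
  refine h3.shift 1 1 ?_
  rintro ⟨a, y⟩ ⟨h4, h5, h6⟩
  simp only at h4 h5 h6
  rw [zero_add, zero_add, Real.sqrt_one] at h6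
  have h5' : (0 : ℝ) < a := by linarith
  have h6' : (a : ℝ) + y < d + 3 := by linarith
  have h5'' : 0 < a := by exact_mod_cast h5'
  have h6'' : a + y < d + 3 := by exact_mod_cast h6'
  refine ⟨by simp only; omega, by simp only; omega, by simp only; omega⟩

theorem GD_of_Sur {κ : Type} [Fintype κ] {u : κ → ℕ} {d : ℕ} (h : Sur u (TZ d)) : GD d (ms u) := by
  apply GD_of
  refine ⟨fun hle => ?_, fun _ => h⟩
  obtain ⟨T, hT, hTc, hTE⟩ := h
  have hTS : T ⊆ TF d := fun u hu => by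
    rw [← mem_coe, coe_TF]
    exact hT (mem_coe.2 hu)
  have : T = TF d := eq_of_subset_of_card_le hTS (by rw [card_TF]; omega)
  rw [this, coe_TF] at hTE
  exact hTE

theorem GD_of_Emp {κ : Type} [Fintype κ] {u : κ → ℕ} {d : ℕ}
    (hc : (d + 2).choose 2 ≤ Pool.Agent.TH603.Sur.cond u)
    (h : Emp u (TZ d)) : GD d (ms u) := by
  apply GD_of
  refine ⟨fun _ => h, fun hle => ⟨TF d, (coe_TF d).subset, ?_, by rw [coe_TF]; exact h⟩⟩
  rw [card_TF]
  omega

theorem halves_two (m : ℕ) : halves (2 * m) = 4 • ({m} : Multiset ℕ) := by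
  unfold halves
  have e1 : 2 * m / 2 = m := by omega
  have e2 : (2 * m + 1) / 2 = m := by omega
  rw [e1, e2]
  rfl

theorem GD_quad {d N m : ℕ} (hN : 1 ≤ N) (hm : 1 ≤ m) (h1 : GD d (N • {2 * m}))
    (h2 : GD d (N • {2 * m + 1})) : GD d ((N * 4) • {m}) := by
  have e1 : GD d (N • {2 * m} + 0) := by
    rw [add_zero]
    exact @h1
  have e2 : GD d (N • {2 * m + 1} + 0) := by
    rw [add_zero]
    exact @h2
  have h : GD d (N • halves (2 * m) + 0) := @GD.four d N (2 * m) 0 hN (by omega) @e1 @e2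
  rw [add_zero, halves_two, smul_smul] at h
  exact @h

/-- sixteen points, in every degree -/
theorem GD_sixteen (d : ℕ) {m : ℕ} (hm : 1 ≤ m) : GD d (16 • {m}) := by
  have h1 : ∀ b : ℕ, GD d (1 • {b}) := fun b => by
    rw [one_smul]
    exact @GD.point d b
  have h4 : ∀ b : ℕ, 1 ≤ b → GD d (4 • {b}) := fun b hb =>
    @GD_quad d 1 b le_rfl hb (@h1 _) (@h1 _)
  exact @GD_quad d 4 m (by norm_num) hm (@h4 _ (by omega)) (@h4 _ (by omega))

theorem choose_two_mul (n : ℕ) : 2 * (n + 1).choose 2 = (n + 1) * n := by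
  rw [Nat.choose_two_right, mul_comm 2, Nat.div_mul_cancel (Nat.even_mul_pred_self _).two_dvd]
  rfl

/-- thirty-six points in the middle degree -/
theorem GD_thirtysix {m : ℕ} (hm : 1 ≤ m) : GD (6 * m + 1) (36 • {m}) := by
  refine @GD_quad _ 9 m (by norm_num) hm ?_ ?_
  · rw [← ms_fin]
    exact GD_of_Sur (Sur_nine (2 * m) (by omega))
  · rw [← ms_fin]
    refine GD_of_Emp ?_ (Pool.Agent.TH603.EL.Emp_plane (by simp) ?_)
    · have h1 := choose_two_mul (6 * m + 2)
      have h2 := choose_two_mul (2 * m + 1)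
      have h3 : Pool.Agent.TH603.Sur.cond (fun _ : Fin 9 => 2 * m + 1) = 9 * (2 * m + 1 + 1).choose 2 := by
        unfold Pool.Agent.TH603.Sur.cond
        simp
      have h4 : 2 * (6 * m + 1 + 2).choose 2 ≤ 2 * Pool.Agent.TH603.Sur.cond (fun _ : Fin 9 => 2 * m + 1) := by
        rw [h3]
        nlinarith
      omega
    · have e : √((Fintype.card (Fin 9) : ℕ) : ℝ) = 3 := by
        rw [Fintype.card_fin, show (((9 : ℕ) : ℝ)) = 3 ^ 2 by norm_num]
        exact Real.sqrt_sq (by norm_num)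
      rw [e]
      simp only [sum_const, card_univ, Fintype.card_fin, nsmul_eq_mul]
      push_cast
      linarith

/-- the rank at a collision of twenty-five points along `y = x ^ 5` -/
theorem rank_twentyfive (m : ℕ) : ∃ γ : Polynomial ℚ,
    RkI (Pool.Agent.H932R2.cIdeal (fun _ : Fin 25 => (1 : ℚ)) γ m) (Tset (5 * m + 1))
      (25 * (m + 1).choose 2) := by
  have hb := Pool.Agent.R36.PS.bound (K := ℚ) (s := 5) (by norm_num) 1 m (by
    intro q hq _
    exact_mod_cast hq.ne')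
  have hcount := Pool.Agent.R36.PS.count (s := 5) (j := 1) (m := m) (by norm_num) (by norm_num)
  have e1 : (1 + 2).choose 2 + m * (5 * (1 + 1) - 5 * (5 - 1) / 2) = 3 := by
    have : 5 * (1 + 1) - 5 * (5 - 1) / 2 = 0 := by norm_num
    rw [this, mul_zero]
    rfl
  rw [e1] at hb hcount
  rw [← Pool.Agent.R36.PS.jet_sa (K := ℚ) (s := 5) (r := 5 ^ 2) (m := m) (by norm_num)] at hb
  obtain ⟨v, hv, hc⟩ := Pool.Agent.R36.PS.exists_indep (Pool.Agent.R36.PS.Vd ℚ (5 * m + 1))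
      (Submodule.restrictScalars ℚ
        (Pool.Agent.H932R2.jetIdeal m (1 : ℚ) (Pool.Agent.R36.PS.sa ℚ 5 (5 ^ 2))))
      (5 ^ 2 * (m + 1).choose 2) (by
        rw [Pool.Agent.R36.PS.finrank_Vd_eq, ← hcount]
        exact Nat.add_le_add_right hb _)
  refine ⟨∑ j : Fin (5 ^ 2), Polynomial.C (Pool.Agent.R36.PS.sa ℚ 5 (5 ^ 2) j) *
    Polynomial.X ^ (j : ℕ), v, fun i => ?_, fun a ha => hc a ?_⟩
  · rw [Pool.Agent.R36.PS.mspan_eq]
    exact hv i
  · have h2 : Pool.Agent.H932R2.jetIdeal m (1 : ℚ) (Pool.Agent.R36.PS.sa ℚ 5 (5 ^ 2)) =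
        Pool.Agent.H932R2.cIdeal (fun _ : Fin (5 ^ 2) => (1 : ℚ))
          (∑ j : Fin (5 ^ 2), Polynomial.C (Pool.Agent.R36.PS.sa ℚ 5 (5 ^ 2) j) *
            Polynomial.X ^ (j : ℕ)) m := by
      unfold Pool.Agent.H932R2.jetIdeal Pool.Agent.H932R2.cIdeal
      rw [Pool.Agent.H932R2.rootPoly_const]
    rw [Submodule.restrictScalars_mem, h2]
    exact ha

/-- twenty-five points in the middle degree -/
theorem GD_twentyfive (m : ℕ) : GD (5 * m + 1) (25 • {m}) := by
  classical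
  rw [← ms_fin]
  apply GD_of_expDim
  obtain ⟨γ, hγ⟩ := rank_twentyfive m
  obtain ⟨F, hF, hF'⟩ := points_of_collision hγ
  refine ⟨F, hF, fun P hP => ?_⟩
  rw [MvPolynomial.aeval_eq_eval] at hP
  have h1 := hF' _ hP
  simp only at h1
  have h2 := Pool.Agent.H932R2.finrank_inf (M := Tfin (5 * m + 1)) (n := 25 * (m + 1).choose 2)
    (r := 1) (m := m) (c := fun a : Fin 25 => P a 0)
    (γ := fun a : Fin 25 => Polynomial.C (P a 1)) (by rw [coe_Tfin]; exact h1)
    (Or.inr (by rw [Fintype.card_fin, Pool.Agent.H932R2.card_EE_eq]))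
  rw [Fintype.card_fin, Pool.Agent.H932R2.card_EE_eq, coe_Tfin,
    Pool.Agent.R36.PS.card_Tfin_choose] at h2
  unfold ExpDim
  rw [Finset.sum_const, card_univ, Fintype.card_fin, smul_eq_mul, ← h2]
  refine Pool.Agent.H932R2.finrank_forms _ _ fun F hF => ?_
  rw [Submodule.restrictScalars_mem, Submodule.restrictScalars_mem]
  unfold uIdeal
  rw [Ideal.mem_iInf, Ideal.mem_iInf]
  exact forall_congr' fun i => Pool.Agent.H932R2.mem_ptIdeal_iff hF

/-- the middle degree, and all the others -/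
theorem squares {r : ℕ} (hr : r = 16 ∨ r = 25 ∨ r = 36) {m : ℕ} (hm : 1 ≤ m) {L : Type} [Field L]
    [CharZero L] :
    ∃ F : MvPolynomial (Fin r × Fin 2) ℚ, F ≠ 0 ∧ ∀ P : Fin r → Fin 2 → L,
      MvPolynomial.aeval (fun ij : Fin r × Fin 2 => P ij.1 ij.2) F ≠ 0 →
      ∀ d : ℕ, ExpDim L (fun _ => m) P d := by
  have key : ∀ {r s : ℕ}, r = s ^ 2 → 5 ≤ s → s ≤ 6 → GD (s * m + 1) (r • {m}) →
      ∃ F : MvPolynomial (Fin r × Fin 2) ℚ, F ≠ 0 ∧ ∀ P : Fin r → Fin 2 → L,
        MvPolynomial.aeval (fun ij : Fin r × Fin 2 => P ij.1 ij.2) F ≠ 0 →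
        ∀ d : ℕ, ExpDim L (fun _ => m) P d := by
    intro r s hrs hs4 hs6 h
    have hr10 : 10 ≤ r := by nlinarith
    obtain ⟨F1, hF1, hF1'⟩ := Pool.Agent.TH641.NW.expDim_uni_win2 (L := L) hr10 hm
    rw [← ms_fin] at h
    obtain ⟨F2, hF2, hF2'⟩ := GD.expDim @h
    refine ⟨F1 * F2, mul_ne_zero hF1 hF2, fun P hP d => ?_⟩
    rw [map_mul] at hP
    have hsq : √(r : ℝ) = s := by
      rw [hrs, Nat.cast_pow, Real.sqrt_sq (Nat.cast_nonneg s)]
    have hs4R : (5 : ℝ) ≤ s := by exact_mod_cast hs4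
    have hs6R : (s : ℝ) ≤ 6 := by exact_mod_cast hs6
    rcases lt_trichotomy d (s * m + 1) with hd | hd | hd
    · refine hF1' P (left_ne_zero_of_mul hP) d (Or.inl ?_)
      refine lt_of_le_of_lt (min_le_right _ _) ?_
      rw [hsq]
      have hdR : (d : ℝ) ≤ s * m := by exact_mod_cast (by omega : d ≤ s * m)
      have h9 : 9 / (4 * (s : ℝ)) ≤ 9 / 20 :=
        div_le_div_of_nonneg_left (by norm_num) (by norm_num) (by linarith)
      nlinarith
    · subst hd
      exact hF2' P (right_ne_zero_of_mul hP)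
    · refine hF1' P (left_ne_zero_of_mul hP) d (Or.inr ?_)
      refine lt_of_le_of_lt (min_le_right _ _) ?_
      rw [hsq]
      have hdR : (s : ℝ) * m + 2 ≤ d := by exact_mod_cast (by omega : s * m + 2 ≤ d)
      have h9 : 1 / (4 * (s : ℝ)) ≤ 1 / 20 :=
        div_le_div_of_nonneg_left (by norm_num) (by norm_num) (by linarith)
      nlinarith
  rcases hr with rfl | rfl | rfl
  · have h : Gd (ms (fun _ : Fin 16 => m)) := by
      rw [ms_fin]
      intro ι _ w hw d
      exact GD_sixteen d hm w hw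
    obtain ⟨F, hF, hF'⟩ := Gd.expDim @h
    exact ⟨F, hF, fun P hP d => hF' P hP d⟩
  · exact key (s := 5) (by norm_num) le_rfl (by norm_num) (by exact @GD_twentyfive m)
  · exact key (s := 6) (by norm_num) (by norm_num) le_rfl (by exact @GD_thirtysix m hm)

end Pool.Agent.K7.H55.SY
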