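import Pool.Agent.K7.H55.SY.Bohr
import Pool.Agent.K7.H55.SY.Squares
import Pool.Agent.K7.H2.FO.FinalE
import Pool.Agent.TH760.EN.Asm
import Pool.Agent.TH864.SX.Eleven
import Pool.Agent.TH469.SX.Fifteen

set_option autoImplicit false

/-! Multiplicities for which every number `r ≥ 10` of general points has the expected dimension in
every degree: they have bounded gaps. -/

namespace Pool.Agent.K7.H55.SY

open Pool.Agent.H932R3 (ExpDim)
open Pool.Agent.K7.H2.FO

/-- the expected dimension in every degree at general points of one multiplicity -/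
def Exp (L : Type) [Field L] [CharZero L] (r m : ℕ) : Prop :=
  ∃ F : MvPolynomial (Fin r × Fin 2) ℚ, F ≠ 0 ∧ ∀ P : Fin r → Fin 2 → L,
    MvPolynomial.aeval (fun ij : Fin r × Fin 2 => P ij.1 ij.2) F ≠ 0 →
      ∀ d : ℕ, ExpDim L (fun _ => m) P d

section windows
variable (L : Type) [Field L] [CharZero L]

/-- no degree in the window -/
def Free (r m : ℕ) (lo up : ℝ) : Prop := ∀ d : ℕ,
  (2 * d + 3 : ℝ) - √(r : ℝ) * (2 * m + 1) < -lo ∨ up < (2 * d + 3 : ℝ) - √(r : ℝ) * (2 * m + 1)

theorem exp_ten {m : ℕ} (hm : 43 ≤ m) (h : Free 10 m ((163 : ℕ) / 1000) ((163 : ℕ) / 1000)) :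
    Exp L 10 m := by
  obtain ⟨F, hF, hF'⟩ := Pool.Agent.TH641.NW.expDim_uni_win2 (L := L) (n := 10) le_rfl
    (show 1 ≤ m by omega)
  refine ⟨F, hF, fun P hP d => hF' P hP d ?_⟩
  have h5 : √((10 : ℕ) : ℝ) ≤ 3.1623 := Real.sqrt_le_iff.2 ⟨by norm_num, by norm_num⟩
  have h1 := min_le_left (√((10 : ℕ) : ℝ) - 3) (2 / 3 + 9 / (4 * √((10 : ℕ) : ℝ)))
  have h2 := min_le_left (√((10 : ℕ) : ℝ) - 3) (2 / 3 + 1 / (4 * √((10 : ℕ) : ℝ)))
  rcases h d with hd | hd
  · left
    push_cast at hd h1 h5 ⊢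
    linarith
  · right
    push_cast at hd h2 h5 ⊢
    linarith

theorem exp_E {r l u : ℕ} (hr : r ∈ listE) (x : ℝ) (h1 : (r : ℝ) ≤ x * x) (h2 : 0 ≤ x)
    (h3 : 500 ≤ (thr r : ℝ)) (h3' : (thrE r : ℝ) ≤ 5000)
    (h4' : (1 - (thrE r : ℝ) / 5000) * (x - 3) ≤ l / 1000)
    (h4 : ((thr r : ℝ) / 500 - 1) * (x - 3) ≤ u / 1000) {m : ℕ} (hm : 43 ≤ m)
    (h : Free r m ((l : ℝ) / 1000) ((u : ℝ) / 1000)) : Exp L r m := by
  have h5 : √(r : ℝ) ≤ x := Real.sqrt_le_iff.2 ⟨h2, by rw [pow_two]; exact h1⟩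
  have h6 : ((thr r : ℝ) / 500 - 1) * (√(r : ℝ) - 3) ≤ ((thr r : ℝ) / 500 - 1) * (x - 3) :=
    mul_le_mul_of_nonneg_left (by linarith) (by linarith)
  have h7 : (1 - (thrE r : ℝ) / 5000) * (√(r : ℝ) - 3) ≤ (1 - (thrE r : ℝ) / 5000) * (x - 3) :=
    mul_le_mul_of_nonneg_left (by linarith) (by linarith)
  obtain ⟨F, hF, hF'⟩ := expDim_newE (L := L) hr hm
  refine ⟨F, hF, fun P hP d => hF' P hP d ?_⟩
  rcases h d with hd | hd
  · left
    linarith
  · right; right
    linarith

theorem exp_N {r l u : ℕ} (hr : 10 ≤ r) (hsq : ¬ IsSquare r) (y x : ℝ) (h0 : y * y ≤ (r : ℝ))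
    (h1 : (r : ℝ) ≤ x * x) (hy : 3 < y) (h2 : 0 ≤ x) (h3 : 500 ≤ (thr r : ℝ))
    (h4' : 2 / 3 + 9 / (4 * y) ≤ l / 1000)
    (h4 : ((thr r : ℝ) / 500 - 1) * (x - 3) ≤ u / 1000) {m : ℕ} (hm : 43 ≤ m)
    (h : Free r m ((l : ℝ) / 1000) ((u : ℝ) / 1000)) : Exp L r m := by
  have h5 : √(r : ℝ) ≤ x := Real.sqrt_le_iff.2 ⟨h2, by rw [pow_two]; exact h1⟩
  have h5' : y ≤ √(r : ℝ) := Real.le_sqrt_of_sq_le (by rw [pow_two]; exact h0)
  have h6 : ((thr r : ℝ) / 500 - 1) * (√(r : ℝ) - 3) ≤ ((thr r : ℝ) / 500 - 1) * (x - 3) :=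
    mul_le_mul_of_nonneg_left (by linarith) (by linarith)
  have h7 : 9 / (4 * √(r : ℝ)) ≤ 9 / (4 * y) :=
    div_le_div_of_nonneg_left (by norm_num) (by linarith) (by linarith)
  obtain ⟨F, hF, hF'⟩ := expDim_new (L := L) hr hsq (show 1 ≤ m by omega)
  refine ⟨F, hF, fun P hP d => hF' P hP d ?_⟩
  rcases h d with hd | hd
  · left
    refine lt_of_le_of_lt (min_le_right _ _) ?_
    linarith
  · right; right
    linarith

/-- `(r, D, l, u)`: with `m₀ = 30559034`, the number `√r (2 m₀ + 1)` is between `D + (l + 50) / 1000`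
and `D + 2 - (u + 50) / 1000`. -/
def tabB : List (ℕ × ℕ × ℕ × ℕ) :=
  [(10, 193272303, 163, 163), (12, 211719201, 155, 108), (14, 228682873, 219, 106),
    (17, 251996253, 562, 155), (18, 259302005, 439, 187), (19, 266407485, 567, 357),
    (20, 273328313, 692, 192), (22, 286669153, 932, 420), (23, 293111961, 838, 220),
    (24, 299416165, 954, 308), (26, 311642225, 982, 299), (27, 317578801, 1100, 304),
    (28, 323406421, 1092, 473), (29, 329130873, 1085, 377), (30, 334757449, 1078, 318),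
    (31, 340291005, 1071, 365), (32, 345736007, 1065, 468), (33, 351096575, 1059, 335),
    (34, 356376519, 1053, 244), (35, 361579371, 1047, 292)]

theorem exp_B {q : ℕ × ℕ × ℕ × ℕ} (hq : q ∈ tabB) {m : ℕ} (hm : 43 ≤ m)
    (h : Free q.1 m ((q.2.2.1 : ℝ) / 1000) ((q.2.2.2 : ℝ) / 1000)) : Exp L q.1 m := by
  simp only [tabB, List.mem_cons, List.not_mem_nil, or_false] at hq
  rcases hq with rfl | rfl | rfl | rfl | rfl | rfl | rfl | rfl | rfl | rfl | rfl | rfl | rfl |
    rfl | rfl | rfl | rfl | rfl | rfl | rfl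
  · exact exp_ten L hm h
  · exact exp_E L (by decide +kernel) 3.46411 (by norm_num) (by norm_num) (by norm_num [thr])
      (by norm_num [thrE]) (by norm_num [thrE]) (by norm_num [thr]) hm h
  · exact exp_E L (by decide +kernel) 3.74166 (by norm_num) (by norm_num) (by norm_num [thr])
      (by norm_num [thrE]) (by norm_num [thrE]) (by norm_num [thr]) hm h
  · exact exp_E L (by decide +kernel) 4.12311 (by norm_num) (by norm_num) (by norm_num [thr])
      (by norm_num [thrE]) (by norm_num [thrE]) (by norm_num [thr]) hm h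
  · exact exp_E L (by decide +kernel) 4.24265 (by norm_num) (by norm_num) (by norm_num [thr])
      (by norm_num [thrE]) (by norm_num [thrE]) (by norm_num [thr]) hm h
  · exact exp_E L (by decide +kernel) 4.3589 (by norm_num) (by norm_num) (by norm_num [thr])
      (by norm_num [thrE]) (by norm_num [thrE]) (by norm_num [thr]) hm h
  · exact exp_E L (by decide +kernel) 4.47214 (by norm_num) (by norm_num) (by norm_num [thr])
      (by norm_num [thrE]) (by norm_num [thrE]) (by norm_num [thr]) hm h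
  · exact exp_E L (by decide +kernel) 4.69042 (by norm_num) (by norm_num) (by norm_num [thr])
      (by norm_num [thrE]) (by norm_num [thrE]) (by norm_num [thr]) hm h
  · exact exp_E L (by decide +kernel) 4.79584 (by norm_num) (by norm_num) (by norm_num [thr])
      (by norm_num [thrE]) (by norm_num [thrE]) (by norm_num [thr]) hm h
  · exact exp_E L (by decide +kernel) 4.89898 (by norm_num) (by norm_num) (by norm_num [thr])
      (by norm_num [thrE]) (by norm_num [thrE]) (by norm_num [thr]) hm h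
  · exact exp_E L (by decide +kernel) 5.09902 (by norm_num) (by norm_num) (by norm_num [thr])
      (by norm_num [thrE]) (by norm_num [thrE]) (by norm_num [thr]) hm h
  · exact exp_N L (by norm_num) (by decide +kernel) 5.1961 5.19616 (by norm_num) (by norm_num)
      (by norm_num) (by norm_num) (by norm_num [thr]) (by norm_num) (by norm_num [thr]) hm h
  · exact exp_N L (by norm_num) (by decide +kernel) 5.2915 5.29151 (by norm_num) (by norm_num)
      (by norm_num) (by norm_num) (by norm_num [thr]) (by norm_num) (by norm_num [thr]) hm h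
  · exact exp_N L (by norm_num) (by decide +kernel) 5.3851 5.38517 (by norm_num) (by norm_num)
      (by norm_num) (by norm_num) (by norm_num [thr]) (by norm_num) (by norm_num [thr]) hm h
  · exact exp_N L (by norm_num) (by decide +kernel) 5.4772 5.47723 (by norm_num) (by norm_num)
      (by norm_num) (by norm_num) (by norm_num [thr]) (by norm_num) (by norm_num [thr]) hm h
  · exact exp_N L (by norm_num) (by decide +kernel) 5.5677 5.56777 (by norm_num) (by norm_num)
      (by norm_num) (by norm_num) (by norm_num [thr]) (by norm_num) (by norm_num [thr]) hm h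
  · exact exp_N L (by norm_num) (by decide +kernel) 5.6568 5.65686 (by norm_num) (by norm_num)
      (by norm_num) (by norm_num) (by norm_num [thr]) (by norm_num) (by norm_num [thr]) hm h
  · exact exp_N L (by norm_num) (by decide +kernel) 5.7445 5.74457 (by norm_num) (by norm_num)
      (by norm_num) (by norm_num) (by norm_num [thr]) (by norm_num) (by norm_num [thr]) hm h
  · exact exp_N L (by norm_num) (by decide +kernel) 5.8309 5.83096 (by norm_num) (by norm_num)
      (by norm_num) (by norm_num) (by norm_num [thr]) (by norm_num) (by norm_num [thr]) hm h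
  · exact exp_N L (by norm_num) (by decide +kernel) 5.916 5.91608 (by norm_num) (by norm_num)
      (by norm_num) (by norm_num) (by norm_num [thr]) (by norm_num) (by norm_num [thr]) hm h

/-- eleven and fifteen points: only the degrees divisible by three matter -/
theorem exp_three {r : ℕ} (hr : r = 11 ∨ r = 15) {m : ℕ}
    (h : ∀ d : ℕ, 3 ∣ d → (2 * d + 3 : ℝ) - √(r : ℝ) * (2 * m + 1) < -(√(r : ℝ) - 3) ∨
      0 < (2 * d + 3 : ℝ) - √(r : ℝ) * (2 * m + 1)) : Exp L r m := by
  rcases hr with rfl | rfl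
  · obtain ⟨F, hF, hF'⟩ := Pool.Agent.TH864.SX.uniform11 m
    refine ⟨F, hF, fun P hP d => hF' P hP d ?_⟩
    by_cases h3 : 3 ∣ d
    · right
      rcases h d h3 with hd | hd
      · left
        push_cast at hd
        linarith
      · right
        push_cast at hd
        linarith
    · exact Or.inl h3
  · obtain ⟨F, hF, hF'⟩ := Pool.Agent.TH469.SX.fifteen m
    refine ⟨F, hF, fun P hP d => hF' P hP d ?_⟩
    by_cases h3 : 3 ∣ d
    · right
      rcases h d h3 with hd | hd
      · left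
        push_cast at hd
        linarith
      · right
        push_cast at hd
        linarith
    · exact Or.inl h3

end windows

/-! ### one multiplicity, and recurrence -/

/-- the check of an entry of the table -/
def okB (q : ℕ × ℕ × ℕ × ℕ) : Prop := q.1 < 36 ∧ q.2.1 % 2 = 1 ∧ 0 < q.1 ∧
  (1000 * q.2.1 + q.2.2.1 + 50) ^ 2 < q.1 * (1000 * 61118069) ^ 2 ∧
  (1000 * (q.2.1 + 2) - (q.2.2.2 + 50)) + (q.2.2.2 + 50) = 1000 * (q.2.1 + 2) ∧
  q.1 * (1000 * 61118069) ^ 2 < (1000 * (q.2.1 + 2) - (q.2.2.2 + 50)) ^ 2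

instance (q : ℕ × ℕ × ℕ × ℕ) : Decidable (okB q) := by unfold okB; infer_instance

theorem tabB_ok : ∀ q ∈ tabB, okB q := by decide +kernel

theorem bracket {r D l u st W : ℕ} (h1 : (1000 * D + l + 50) ^ 2 < r * (1000 * 61118069) ^ 2)
    (hW : W + (u + 50) = 1000 * (D + st)) (h2 : r * (1000 * 61118069) ^ 2 < W ^ 2) :
    ((D : ℤ) : ℝ) + (l : ℝ) / 1000 + 1 / 20 < √(r : ℝ) * (2 * ((30559034 : ℕ) : ℝ) + 1) ∧
    √(r : ℝ) * (2 * ((30559034 : ℕ) : ℝ) + 1) < ((D : ℤ) : ℝ) + ((st : ℤ) : ℝ) - (u : ℝ) / 1000 - 1 / 20 := by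
  have hs := Real.sq_sqrt (Nat.cast_nonneg (α := ℝ) r)
  have hs0 := Real.sqrt_nonneg (r : ℝ)
  have h1R : ((1000 * D + l + 50 : ℝ)) ^ 2 < r * (1000 * 61118069) ^ 2 := by exact_mod_cast h1
  have h2R : (r : ℝ) * (1000 * 61118069) ^ 2 < (W : ℝ) ^ 2 := by exact_mod_cast h2
  have hWR : (W : ℝ) + (u + 50) = 1000 * (D + st) := by exact_mod_cast hW
  have e : (√(r : ℝ) * (1000 * 61118069)) ^ 2 = r * (1000 * 61118069) ^ 2 := by
    rw [mul_pow, hs]
  rw [← e] at h1R h2R
  have h3 := lt_of_pow_lt_pow_left₀ 2 (by positivity) h1R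
  have h4 := lt_of_pow_lt_pow_left₀ 2 (Nat.cast_nonneg W) h2R
  push_cast
  constructor
  · linarith
  · linarith

/-- **Every number of points at once.** -/
theorem all_numbers (L : Type) [Field L] [CharZero L] {h : ℕ}
    (hh : ∀ r : ℕ, r < 36 → ∃ k : ℤ, |(h : ℝ) * (√(r : ℝ) / 3) - k| ≤ 1 / 120) :
    ∀ r : ℕ, 10 ≤ r → Exp L r (30559034 + h) := by
  have hh' : ∀ r : ℕ, r < 36 → ∃ k : ℤ, |2 * (h : ℝ) * √(r : ℝ) - 6 * k| ≤ 1 / 20 := by
    intro r hr
    obtain ⟨k, hk⟩ := hh r hr
    refine ⟨k, ?_⟩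
    have e : 2 * (h : ℝ) * √(r : ℝ) - 6 * k = 6 * ((h : ℝ) * (√(r : ℝ) / 3) - k) := by ring
    rw [e, abs_mul, abs_of_pos (by norm_num : (0 : ℝ) < 6)]
    linarith
  have hm : 43 ≤ 30559034 + h := by omega
  have hm1 : 1 ≤ 30559034 + h := by omega
  have hB : ∀ q ∈ tabB, Exp L q.1 (30559034 + h) := by
    intro q hq
    obtain ⟨a1, a2, a3, a4, a5, a6⟩ := tabB_ok q hq
    obtain ⟨k, hk⟩ := hh' q.1 a1
    obtain ⟨b1, b2⟩ := bracket a4 a5 a6
    refine exp_B L hq hm fun d => ?_
    have h1 := transfer (st := ((2 : ℕ) : ℤ)) (D := 2 * (d : ℤ) + 3) (by norm_num) (by norm_num) hk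
      b1 b2 (by push_cast; omega)
    push_cast at h1 ⊢
    exact h1
  have hT : ∀ r D l : ℕ, (r = 11 ∨ r = 15) → D % 6 = 3 → √(r : ℝ) - 3 ≤ (l : ℝ) / 1000 →
      (1000 * D + l + 50) ^ 2 < r * (1000 * 61118069) ^ 2 →
      (1000 * (D + 6) - (0 + 50)) + (0 + 50) = 1000 * (D + 6) →
      r * (1000 * 61118069) ^ 2 < (1000 * (D + 6) - (0 + 50)) ^ 2 → Exp L r (30559034 + h) := by
    intro r D l hr hD hl c1 c2 c3
    obtain ⟨k, hk⟩ := hh' r (by omega)
    obtain ⟨b1, b2⟩ := bracket c1 c2 c3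
    refine exp_three L hr fun d hd => ?_
    obtain ⟨e, rfl⟩ := hd
    have h1 := transfer (st := ((6 : ℕ) : ℤ)) (D := 2 * ((3 * e : ℕ) : ℤ) + 3) (by norm_num)
      (by norm_num) hk b1 b2 (by push_cast; omega)
    push_cast at h1 ⊢
    rcases h1 with h1 | h1
    · left
      linarith
    · right
      linarith
  intro r hr
  rcases Nat.lt_or_ge r 37 with h37 | h37
  · have hin : ∀ q : ℕ × ℕ × ℕ × ℕ, q ∈ tabB → q.1 = r → Exp L r (30559034 + h) := by
      rintro q hq rfl
      exact hB q hq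
    interval_cases r
    · exact hin (10, 193272303, 163, 163) (by decide) rfl
    · exact hT 11 202705701 317 (Or.inl rfl) (by norm_num) (by
        have : √((11 : ℕ) : ℝ) ≤ 3.317 := Real.sqrt_le_iff.2 ⟨by norm_num, by norm_num⟩
        push_cast at this ⊢
        linarith) (by norm_num) (by norm_num) (by norm_num)
    · exact hin (12, 211719201, 155, 108) (by decide) rfl
    · obtain ⟨F, hF, hF'⟩ := Pool.Agent.TH864.SX.uniform13 (30559034 + h)
      exact ⟨F, hF, fun P hP d => hF' P hP d⟩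
    · exact hin (14, 228682873, 219, 106) (by decide) rfl
    · exact hT 15 236709261 873 (Or.inr rfl) (by norm_num) (by
        have : √((15 : ℕ) : ℝ) ≤ 3.873 := Real.sqrt_le_iff.2 ⟨by norm_num, by norm_num⟩
        push_cast at this ⊢
        linarith) (by norm_num) (by norm_num) (by norm_num)
    · exact squares (L := L) (Or.inl rfl) hm1
    · exact hin (17, 251996253, 562, 155) (by decide) rfl
    · exact hin (18, 259302005, 439, 187) (by decide) rfl
    · exact hin (19, 266407485, 567, 357) (by decide) rfl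
    · exact hin (20, 273328313, 692, 192) (by decide) rfl
    · obtain ⟨F, hF, hF'⟩ := Pool.Agent.TH469.SX.twentyone (30559034 + h)
      exact ⟨F, hF, fun P hP d => hF' P hP d⟩
    · exact hin (22, 286669153, 932, 420) (by decide) rfl
    · exact hin (23, 293111961, 838, 220) (by decide) rfl
    · exact hin (24, 299416165, 954, 308) (by decide) rfl
    · exact squares (L := L) (Or.inr (Or.inl rfl)) hm1
    · exact hin (26, 311642225, 982, 299) (by decide) rfl
    · exact hin (27, 317578801, 1100, 304) (by decide) rfl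
    · exact hin (28, 323406421, 1092, 473) (by decide) rfl
    · exact hin (29, 329130873, 1085, 377) (by decide) rfl
    · exact hin (30, 334757449, 1078, 318) (by decide) rfl
    · exact hin (31, 340291005, 1071, 365) (by decide) rfl
    · exact hin (32, 345736007, 1065, 468) (by decide) rfl
    · exact hin (33, 351096575, 1059, 335) (by decide) rfl
    · exact hin (34, 356376519, 1053, 244) (by decide) rfl
    · exact hin (35, 361579371, 1047, 292) (by decide) rfl
    · exact squares (L := L) (Or.inr (Or.inr rfl)) hm1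
  · exact Pool.Agent.TH760.EN.expDim37 (L := L) h37 hm1

/-- the good multiplicities have bounded gaps -/
theorem bounded_gaps (L : Type) [Field L] [CharZero L] : ∃ B : ℕ, ∀ M : ℕ, ∃ m : ℕ,
    M ≤ m ∧ m < M + B ∧ ∀ r : ℕ, 10 ≤ r → Exp L r m := by
  obtain ⟨B, hB⟩ := recur (fun i : Fin 36 => √((i : ℕ) : ℝ) / 3) (K := 120) (by norm_num)
  refine ⟨30559034 + B + 1, fun M => ?_⟩
  obtain ⟨h, h1, h2, h3⟩ := hB M
  refine ⟨30559034 + h, by omega, by omega, all_numbers L fun r hr => ?_⟩
  obtain ⟨k, hk⟩ := h3 ⟨r, hr⟩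
  exact ⟨k, by exact_mod_cast hk⟩

/-- an explicit one -/
theorem explicit (L : Type) [Field L] [CharZero L] : ∀ r : ℕ, 10 ≤ r → Exp L r 30559034 := by
  have h := all_numbers L (h := 0) (fun r _ => ⟨0, by simp⟩)
  exact h

end Pool.Agent.K7.H55.SY
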