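import Pool.Agent.H932R2.Main

set_option autoImplicit false

/-! From the collision of `r` points along a curve to `r` distinct points of the curve: ranks do not
drop. -/

namespace Pool.Agent.K7.H55.SY

open Polynomial Pool.Agent.H932R2

variable {K : Type*} [Field K]

theorem exists_t [Infinite K] {N : ℕ} {ι : Type*} [Fintype ι] (G : ι → Fin N → K[X])
    (h0 : ∀ c : Fin N → K, (∀ k, ∑ i, c i * (G k i).eval 0 = 0) → ∀ i, c i = 0) :
    ∃ t : K, t ≠ 0 ∧ ∀ c : Fin N → K, (∀ k, ∑ i, c i * (G k i).eval t = 0) → ∀ i, c i = 0 := by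
  classical
  let L : K → (Fin N → K) →ₗ[K] (ι → K) := fun t =>
    { toFun := fun c k => ∑ i, c i * (G k i).eval t
      map_add' := fun a b => by
        ext k
        simp only [Pi.add_apply, add_mul, Finset.sum_add_distrib]
      map_smul' := fun a b => by
        ext k
        simp only [Pi.smul_apply, smul_eq_mul, Finset.mul_sum, RingHom.id_apply, mul_assoc] }
  have hL : ∀ t c k, L t c k = ∑ i, c i * (G k i).eval t := fun _ _ _ => rfl
  have hker : LinearMap.ker (L 0) = ⊥ := by
    rw [LinearMap.ker_eq_bot']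
    intro a ha
    exact funext (h0 a fun k => by rw [← hL, ha, Pi.zero_apply])
  obtain ⟨B, hB⟩ := LinearMap.exists_leftInverse_of_injective (L 0) hker
  let Mx : Matrix (Fin N) (Fin N) K[X] := fun k i => ∑ p, C (B (Pi.single p 1) k) * G p i
  have hLs : ∀ t i, L t (Pi.single i 1) = fun p => (G p i).eval t := by
    intro t i
    ext p
    rw [hL, Finset.sum_eq_single i]
    · simp
    · intro j _ hj
      rw [Pi.single_eq_of_ne hj, zero_mul]
    · intro h
      exact absurd (Finset.mem_univ i) h
  have hMx : ∀ t k i, (Mx k i).eval t = B (L t (Pi.single i 1)) k := by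
    intro t k i
    show (∑ p, C (B (Pi.single p 1) k) * G p i).eval t = _
    rw [eval_finsetSum]
    have h1 : L t (Pi.single i 1) = ∑ p, (L t (Pi.single i 1) p) • (Pi.single p 1 : _ → K) := by
      ext q
      simp [Finset.sum_apply, Pi.single_apply]
    conv_rhs => rw [h1]
    rw [map_sum, Finset.sum_apply]
    refine Finset.sum_congr rfl fun p _ => ?_
    rw [eval_mul, eval_C, map_smul, Pi.smul_apply, smul_eq_mul, mul_comm, hLs]
  have hdet : ∀ t, Mx.det.eval t = (Matrix.of fun k i => B (L t (Pi.single i 1)) k).det := by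
    intro t
    rw [← coe_evalRingHom, RingHom.map_det]
    congr 1
    ext k i
    exact hMx t k i
  have hD : Mx.det ≠ 0 := by
    intro h
    have h1 := hdet 0
    rw [h, eval_zero] at h1
    have h2 : (Matrix.of fun k i => B (L 0 (Pi.single i 1)) k) = (1 : Matrix (Fin N) (Fin N) K) := by
      ext k i
      have h3 : B (L 0 (Pi.single i 1)) = Pi.single i 1 := LinearMap.congr_fun hB (Pi.single i 1)
      rw [Matrix.of_apply, h3, Matrix.one_apply, Pi.single_apply]
    rw [h2, Matrix.det_one] at h1
    exact zero_ne_one h1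
  obtain ⟨t, ht⟩ := Infinite.exists_notMem_finset ((X * Mx.det).roots.toFinset)
  have hX : X * Mx.det ≠ 0 := mul_ne_zero X_ne_zero hD
  rw [Multiset.mem_toFinset, mem_roots hX, IsRoot.def, eval_mul, eval_X] at ht
  refine ⟨t, left_ne_zero_of_mul ht, fun a ha => ?_⟩
  have hP := right_ne_zero_of_mul ht
  rw [hdet] at hP
  have ha' : L t a = 0 := by
    ext k
    rw [hL, ha, Pi.zero_apply]
  have h1 : (Matrix.of fun k i => B (L t (Pi.single i 1)) k).mulVec a = 0 := by
    ext k
    rw [Matrix.mulVec, dotProduct, Pi.zero_apply]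
    have h2 : a = ∑ i, a i • (Pi.single i 1 : Fin N → K) := by
      ext q
      simp [Finset.sum_apply, Pi.single_apply]
    have h3 : B (L t a) k = ∑ i, a i * B (L t (Pi.single i 1)) k := by
      conv_lhs => rw [h2]
      rw [map_sum, map_sum, Finset.sum_apply]
      refine Finset.sum_congr rfl fun i _ => ?_
      rw [map_smul, map_smul, Pi.smul_apply, smul_eq_mul]
    rw [ha', map_zero, Pi.zero_apply] at h3
    rw [h3]
    exact Finset.sum_congr rfl fun i _ => mul_comm _ _
  exact fun i => congrFun (Matrix.eq_zero_of_mulVec_eq_zero hP h1) i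

theorem sh_smul (c : K) (γ : K[X]) (a : K) (f : K[X][X]) : sh c γ (a • f) = a • sh c γ f := by
  have h1 : a • f = C (C a) * f := by
    rw [Algebra.smul_def]
    rfl
  have h2 : a • sh c γ f = C (C a) * sh c γ f := by
    rw [Algebra.smul_def]
    rfl
  rw [h1, h2, map_mul, sh_C, C_comp]

theorem smul_modByMonic' (a : K) (p q : K[X]) : (a • p) %ₘ q = a • (p %ₘ q) := by
  rw [Polynomial.smul_modByMonic]

theorem sum_modByMonic {N : ℕ} (c : Fin N → K) (p : Fin N → K[X]) (q : K[X]) :
    (∑ i, c i • p i) %ₘ q = ∑ i, c i • (p i %ₘ q) := by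
  have h := map_sum (modByMonicHom q) (fun i => c i • p i) Finset.univ
  simp only [map_smul] at h
  exact h

/-- **From a collision to distinct points.** -/
theorem bridge [Infinite K] {r m N : ℕ} {c : K} {γ : K[X]} {T : Set (ℕ × ℕ)}
    (h : RkI (cIdeal (fun _ : Fin r => c) γ m) T N) :
    ∃ x : Fin r → K, Function.Injective x ∧ RkI (cIdeal x γ m) T N := by
  classical
  obtain ⟨v, hv, hli⟩ := h
  let e : Fin r → K := fun i => Infinite.natEmbedding K i
  have he : Function.Injective e := by
    intro a b hab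
    exact Fin.ext ((Infinite.natEmbedding K).injective hab)
  let x : K → Fin r → K := fun t i => c + t * e i
  let PA : K[X][X] := ∏ i, (X - C (C c + X * C (e i)))
  have hPA : PA.Monic := monic_prod_of_monic _ _ fun _ _ => monic_X_sub_C _
  have hPAe : ∀ t, PA.map (evalRingHom t) = rootPoly (x t) := by
    intro t
    simp only [PA, rootPoly, x, Polynomial.map_prod]
    refine Finset.prod_congr rfl fun i _ => ?_
    simp only [Polynomial.map_sub, map_X, map_C, coe_evalRingHom, eval_add, eval_C, eval_mul,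
      eval_X]
  let g : ℕ → Fin N → K[X] := fun l i => (sh 0 γ (v i)).coeff l
  let G : Fin m × Fin (r * m) → Fin N → K[X] := fun p i =>
    (((g p.1 i).map C) %ₘ PA ^ (m - p.1)).coeff p.2
  have hG : ∀ t p i, (G p i).eval t = (g p.1 i %ₘ rootPoly (x t) ^ (m - p.1)).coeff p.2 := by
    intro t p i
    show ((((g p.1 i).map C) %ₘ PA ^ (m - p.1)).coeff p.2).eval t = _
    have h1 := Polynomial.map_modByMonic (evalRingHom t) (p := (g p.1 i).map C)
      (hPA.pow (m - p.1))
    rw [Polynomial.map_pow, hPAe, Polynomial.map_map] at h1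
    have h2 : (evalRingHom t).comp (C : K →+* K[X]) = RingHom.id K := by
      ext a
      simp
    rw [h2, Polynomial.map_id] at h1
    rw [← h1, coeff_map, coe_evalRingHom]
  -- the criterion
  have hcrit : ∀ t (a : Fin N → K), (∑ i, a i • v i ∈ cIdeal (x t) γ m) ↔
      ∀ p, ∑ i, a i * (G p i).eval t = 0 := by
    intro t a
    rw [mem_cIdeal_iff_sh]
    have h1 : ∀ l, (sh 0 γ (∑ i, a i • v i)).coeff l = ∑ i, a i • g l i := by
      intro l
      rw [map_sum, finsetSum_coeff]
      refine Finset.sum_congr rfl fun i _ => ?_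
      rw [sh_smul, coeff_smul]
    have h2 : ∀ l, (rootPoly (x t) ^ (m - l) ∣ (sh 0 γ (∑ i, a i • v i)).coeff l) ↔
        ∑ i, a i • (g l i %ₘ rootPoly (x t) ^ (m - l)) = 0 := by
      intro l
      rw [h1, ← modByMonic_eq_zero_iff_dvd ((rootPoly_monic _).pow _), sum_modByMonic]
    have h3 : ∀ p : Fin m × Fin (r * m), ∑ i, a i * (G p i).eval t =
        (∑ i, a i • (g p.1 i %ₘ rootPoly (x t) ^ (m - p.1))).coeff p.2 := by
      intro p
      rw [finsetSum_coeff]
      refine Finset.sum_congr rfl fun i _ => ?_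
      rw [hG, coeff_smul, smul_eq_mul]
    constructor
    · intro h4 p
      rw [h3, (h2 _).1 (h4 p.1 p.1.2), coeff_zero]
    · intro h4 l hl
      rw [h2]
      ext j
      rw [coeff_zero]
      rcases Nat.lt_or_ge j (r * m) with hj | hj
      · have h5 := h4 (⟨l, hl⟩, ⟨j, hj⟩)
        rw [h3] at h5
        exact h5
      · rw [finsetSum_coeff]
        refine Finset.sum_eq_zero fun i _ => ?_
        rw [coeff_smul]
        have h6 : (g l i %ₘ rootPoly (x t) ^ (m - l)).coeff j = 0 := by
          apply coeff_eq_zero_of_degree_lt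
          refine lt_of_lt_of_le (degree_modByMonic_lt _ ((rootPoly_monic _).pow _)) ?_
          rw [degree_pow, degree_eq_natDegree (rootPoly_monic (x t)).ne_zero, rootPoly_natDegree]
          have : ((m - l) • (r : WithBot ℕ)) = ((r * (m - l) : ℕ) : WithBot ℕ) := by
            rw [nsmul_eq_mul, mul_comm]
            norm_cast
          rw [this]
          have h7 : r * (m - l) ≤ j := (Nat.mul_le_mul_left r (Nat.sub_le m l)).trans hj
          exact_mod_cast h7
        rw [h6, smul_zero]
  have hx0 : x 0 = fun _ => c := by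
    ext i
    simp [x]
  obtain ⟨t, ht, hinj⟩ := exists_t G (fun a ha => by
    have h1 := (hcrit 0 a).2 ha
    rw [hx0] at h1
    exact hli a h1)
  refine ⟨x t, fun a b hab => ?_, v, hv, fun a ha => hinj a ((hcrit t a).1 ha)⟩
  have h1 : t * e a = t * e b := add_left_cancel hab
  exact he (mul_left_cancel₀ ht h1)

/-- the rank at general points -/
theorem points_of_collision [Infinite K] {r m N : ℕ} {c : K} {γ : K[X]} {T : Set (ℕ × ℕ)}
    (h : RkI (cIdeal (fun _ : Fin r => c) γ m) T N) :
    ∃ F : MvPolynomial (Fin r × Fin 2) K, F ≠ 0 ∧ ∀ P : Fin r × Fin 2 → K,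
      MvPolynomial.eval P F ≠ 0 →
        RkI (uIdeal 1 m (fun a => P (a, 0)) (fun a => C (P (a, 1)))) T N := by
  classical
  obtain ⟨x, hx, hR⟩ := bridge h
  have h3 := hR.anti (uIdeal_le hx γ m)
  let c' : Fin r → MvPolynomial (Fin r × Fin 2) K := fun a => MvPolynomial.X (a, 0)
  let γ' : Fin r → (MvPolynomial (Fin r × Fin 2) K)[X] := fun a => C (MvPolynomial.X (a, 1))
  have hev : ∀ P : Fin r × Fin 2 → K,
      uIdeal 1 m (fun a => MvPolynomial.eval P (c' a)) (fun a => (γ' a).map (MvPolynomial.eval P)) =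
      uIdeal 1 m (fun a => P (a, 0)) (fun a => C (P (a, 1))) := by
    intro P
    simp [c', γ']
  let P0 : Fin r × Fin 2 → K := fun ij => if ij.2 = 0 then x ij.1 else γ.eval (x ij.1)
  obtain ⟨F, hF, hF'⟩ := exists_open 1 m c' γ' T N P0 (by
    rw [hev]
    simpa [P0] using h3)
  exact ⟨F, hF, fun P hP => by rw [← hev]; exact hF' P hP⟩

end Pool.Agent.K7.H55.SY
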